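import Pool.Agent.Q148.KJ.Eng
import Pool.Agent.Y882.JR.Fin
import Pool.Agent.Y781.JR.Dens

/-! The linear sieve for `G + k`, normalised by the product of the local factors. -/

set_option autoImplicit false

namespace Pool.Agent.Q148.KJ

open Finset Polynomial Filter Topology
open Pool.Agent.W23.DC
open Pool.Agent.Y882
open Pool.Agent.Y882.PX
open Pool.Agent.Y882.PY

theorem PZ_split (Y : ℕ) (a b : ℝ) (hab : a ≤ b) (g : ℕ → ℝ) :
    ∏ p ∈ PZ Y b, g p = (∏ p ∈ PZ Y a, g p) * ∏ p ∈ pr Y a b, g p := by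
  classical
  rw [← prod_union]
  · congr 1
    ext p
    unfold PZ pr
    rw [mem_union, mem_filter, mem_filter, mem_filter]
    constructor
    · rintro ⟨h1, h2, h3⟩
      rcases lt_or_ge (tt Y p) a with h | h
      · exact Or.inl ⟨h1, h2, h⟩
      · exact Or.inr ⟨h1, h2, h, h3⟩
    · rintro (⟨h1, h2, h3⟩ | ⟨h1, h2, h3, h4⟩)
      · exact ⟨h1, h2, h3.trans_le hab⟩
      · exact ⟨h1, h2, h4⟩
  · rw [disjoint_left]
    intro p hp hq
    unfold PZ at hp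
    unfold pr at hq
    rw [mem_filter] at hp hq
    exact absurd hp.2.2 (not_lt.2 hq.2.2.1)

/-- comparison of the densities at two levels -/
theorem vk_cmp (K : ℕ) (a b κ₀ : ℝ) (ha : 0 < a) (hab : a ≤ b) (hκ₀ : 0 < κ₀) (hκ₁ : κ₀ ≤ 1) :
    ∃ Y0 : ℕ, ∀ Y : ℕ, Y0 ≤ Y → ∀ (G : ℤ[X]) (k : ℤ), (∀ p : ℕ, p.Prime → ro G k p ≤ K) →
      Mer (pr Y a b) (tt Y) (fun p => (ro G k p : ℝ) / p) a b (κ₀ / 4) →
      (1 - κ₀) * (a * vk G k Y a) ≤ b * vk G k Y b ∧ b * vk G k Y b ≤ (1 + κ₀) * (a * vk G k Y a) := by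
  have hb : 0 < b := by linarith
  obtain ⟨Y0, H⟩ := Pool.Agent.Y882.JR.prod_large K b a κ₀ ha hab hκ₀ hκ₁
  refine ⟨Y0, fun Y hY G k hK hmer => ?_⟩
  have hpr : ∀ p ∈ pr Y a b, p.Prime := by
    intro p hp
    unfold pr at hp
    rw [mem_filter] at hp
    exact hp.2.1
  obtain ⟨h1, h2⟩ := H Y hY (fun p => (ro G k p : ℝ) / p) (fun p _ => by positivity) (by
    intro p hp _
    have hp0 : (2 : ℝ) ≤ p := by exact_mod_cast (hpr p hp).two_le
    have h1 : (ro G k p : ℝ) ≤ K := by exact_mod_cast hK p (hpr p hp)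
    show (ro G k p : ℝ) / p ≤ K / ((p : ℝ) - 1)
    apply div_le_div₀ (Nat.cast_nonneg _) h1 (by linarith) (by linarith)) hmer
  have hv : vk G k Y b = vk G k Y a * ∏ p ∈ pr Y a b, (1 - (ro G k p : ℝ) / p) := by
    unfold vk
    exact PZ_split Y a b hab _
  have hva : 0 ≤ vk G k Y a := by
    unfold vk
    apply prod_nonneg
    intro p hp
    unfold PZ at hp
    rw [mem_filter] at hp
    have hp0 : (0 : ℝ) < p := by exact_mod_cast hp.2.1.pos
    have h1 : (ro G k p : ℝ) ≤ p := by exact_mod_cast ro_le_self G k p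
    rw [sub_nonneg, div_le_one hp0]
    exact h1
  rw [hv]
  set Q := ∏ p ∈ pr Y a b, (1 - (ro G k p : ℝ) / p) with hQ
  have hbv : 0 ≤ b * vk G k Y a := by positivity
  constructor
  · have := mul_le_mul_of_nonneg_left h1 hbv
    have e : b * vk G k Y a * ((1 - κ₀) * (a / b)) = (1 - κ₀) * (a * vk G k Y a) := by
      field_simp
    rw [e] at this
    linarith
  · have := mul_le_mul_of_nonneg_left h2 hbv
    have e : b * vk G k Y a * ((1 + κ₀) * (a / b)) = (1 + κ₀) * (a * vk G k Y a) := by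
      field_simp
    rw [e] at this
    linarith

theorem mer_anti (P P' : Finset ℕ) (t g : ℕ → ℝ) (a b a' b' η : ℝ) (h : Mer P t g a b η) (haa : a ≤ a')
    (hbb : b' ≤ b) (hP : ∀ p, (a' ≤ t p ∧ t p < b') → (p ∈ P ↔ p ∈ P')) : Mer P' t g a' b' η := by
  classical
  intro c d hc hcd hd
  have h1 := h c d (haa.trans hc) hcd (hd.trans hbb)
  have h2 : P.filter (fun p => c ≤ t p ∧ t p < d) = P'.filter (fun p => c ≤ t p ∧ t p < d) := by
    ext p
    rw [mem_filter, mem_filter]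
    constructor
    · rintro ⟨h3, h4, h5⟩
      exact ⟨(hP p ⟨hc.trans h4, h5.trans_le hd⟩).1 h3, h4, h5⟩
    · rintro ⟨h3, h4, h5⟩
      exact ⟨(hP p ⟨hc.trans h4, h5.trans_le hd⟩).2 h3, h4, h5⟩
  rw [← h2]
  exact h1

/-- Mertens' theorem at a power of `Y` -/
theorem mert (w κ : ℝ) (hw : 0 < w) (hw1 : w ≤ 1) (hκ : 0 < κ) : ∃ Y0 : ℕ, ∀ Y : ℕ, Y0 ≤ Y →
    (1 - κ) * (Real.exp (-Real.eulerMascheroniConstant) / (w * Real.log Y)) ≤
      ∏ p ∈ PZ Y w, (1 - 1 / (p : ℝ)) ∧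
    ∏ p ∈ PZ Y w, (1 - 1 / (p : ℝ)) ≤
      (1 + κ) * (Real.exp (-Real.eulerMascheroniConstant) / (w * Real.log Y)) := by
  set g := Real.exp (-Real.eulerMascheroniConstant) with hg
  have hg0 : 0 < g := Real.exp_pos _
  have h1 := Pool.Agent.Y781.JR.real_version (fun N => Pool.Agent.Y781.JR.GG (N + 1))
    (fun N => (Pool.Agent.Y781.JR.GG_pos _).le) (fun N => Pool.Agent.Y781.JR.GG_le _) _
    Pool.Agent.Y781.JR.GG_mertens
  have h2 := h1.comp ((tendsto_rpow_atTop hw).comp (tendsto_natCast_atTop_atTop (R := ℝ)))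
  have e1 := h2.eventually_const_le (show (1 - κ) * g < g by nlinarith)
  have e2 := h2.eventually_le_const (show g < (1 + κ) * g by nlinarith)
  obtain ⟨Y0, HY⟩ := eventually_atTop.1 (e1.and (e2.and (eventually_ge_atTop 3)))
  refine ⟨Y0, fun Y hY => ?_⟩
  obtain ⟨f1, f2, f3⟩ := HY Y hY
  have hYr : (3 : ℝ) ≤ Y := by exact_mod_cast f3
  have hY0 : (0 : ℝ) < Y := by linarith
  have hlY : 0 < Real.log Y := Real.log_pos (by linarith)
  have hc : 0 < ⌈(Y : ℝ) ^ w⌉₊ := Nat.ceil_pos.2 (by positivity)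
  simp only [Function.comp, Real.log_rpow hY0, Nat.sub_add_cancel hc] at f1 f2
  have hG : ∏ p ∈ PZ Y w, (1 - 1 / (p : ℝ)) = Pool.Agent.Y781.JR.GG ⌈(Y : ℝ) ^ w⌉₊ := by
    unfold Pool.Agent.Y781.JR.GG
    rw [Pool.Agent.Y882.JR.PZ_eq Y (by omega) w hw1]
  have hwl : 0 < w * Real.log Y := by positivity
  rw [hG, mul_div_assoc', mul_div_assoc', div_le_iff₀ hwl, le_div_iff₀ hwl]
  exact ⟨f1, f2⟩

/-- the product of the local factors below `Y ^ (1 / 3)` -/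
noncomputable def MG (G : ℤ[X]) (k : ℤ) (Y : ℕ) : ℝ :=
  ∏ p ∈ PZ Y (1 / 3), ((1 - (ro G k p : ℝ) / p) / (1 - 1 / (p : ℝ)))

theorem MG_nonneg (G : ℤ[X]) (k : ℤ) (Y : ℕ) : 0 ≤ MG G k Y := by
  unfold MG
  apply prod_nonneg
  intro p hp
  unfold PZ at hp
  rw [mem_filter] at hp
  have hp0 : (1 : ℝ) < p := by exact_mod_cast hp.2.1.one_lt
  have h1 : (ro G k p : ℝ) ≤ p := by exact_mod_cast ro_le_self G k p
  apply div_nonneg
  · rw [sub_nonneg, div_le_one (by linarith)]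
    exact h1
  · rw [sub_nonneg, div_le_one (by linarith)]
    exact hp0.le

theorem MG_eq (G : ℤ[X]) (k : ℤ) (Y : ℕ) :
    MG G k Y * ∏ p ∈ PZ Y (1 / 3), (1 - 1 / (p : ℝ)) = vk G k Y (1 / 3) := by
  unfold MG vk
  rw [← prod_mul_distrib]
  apply prod_congr rfl
  intro p hp
  unfold PZ at hp
  rw [mem_filter] at hp
  have hp0 : (1 : ℝ) < p := by exact_mod_cast hp.2.1.one_lt
  have h1 : (1 : ℝ) - 1 / (p : ℝ) ≠ 0 := by
    have : 1 / (p : ℝ) < 1 := by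
      rw [div_lt_one (by linarith)]
      exact hp0
    linarith
  exact div_mul_cancel₀ _ h1

open Classical in
/-- the densities are controlled by `MG`, for all but few `k` -/
theorem cmpM (K : ℕ) (ζ κ ε : ℝ) (hζ : 0 < ζ) (hζ2 : ζ ≤ 1 / 2) (hκ : 0 < κ) (hκ1 : κ ≤ 1 / 4) (hε : 0 < ε) :
    ∃ Y0 : ℕ, ∀ Y : ℕ, Y0 ≤ Y → ∀ (G : ℤ[X]) (H : ℕ), 1 ≤ G.natDegree → KF G ≤ K → (H : ℝ) ≤ Y →
      ∃ B ⊆ Icc (-(H : ℤ)) (H : ℤ), (B.card : ℝ) ≤ (Y : ℝ) ^ (2 / 3 + ε) ∧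
        ∀ k ∈ Icc (-(H : ℤ)) (H : ℤ), k ∉ B →
          (1 - 3 * κ) * (Real.exp (-Real.eulerMascheroniConstant) / (ζ * Real.log Y) * MG G k Y) ≤ vk G k Y ζ ∧
          vk G k Y ζ ≤ (1 + 3 * κ) * (Real.exp (-Real.eulerMascheroniConstant) / (ζ * Real.log Y) * MG G k Y) := by
  set g := Real.exp (-Real.eulerMascheroniConstant) with hg
  have hg0 : 0 < g := Real.exp_pos _
  obtain ⟨Y1, H1⟩ := mer_ro2 K (min ζ (1 / 3)) (1 / 2) (κ / 4) 1 ε (lt_min hζ (by norm_num)) le_rfl one_pos le_rfl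
    (by linarith) hε
  obtain ⟨Y2, H2⟩ := mert (1 / 3) κ (by norm_num) (by norm_num) hκ
  have hmin : 0 < min ζ (1 / 3) := lt_min hζ (by norm_num)
  obtain ⟨Y3, H3⟩ : ∃ Y3 : ℕ, ∀ Y : ℕ, Y3 ≤ Y → ∀ (G : ℤ[X]) (k : ℤ), (∀ p : ℕ, p.Prime → ro G k p ≤ K) →
      Mer (pr Y (min ζ (1 / 3)) (1 / 2)) (tt Y) (fun p => (ro G k p : ℝ) / p) (min ζ (1 / 3)) (1 / 2) (κ / 4) →
      (1 - κ) * (ζ * vk G k Y ζ) ≤ 1 / 3 * vk G k Y (1 / 3) ∧
        1 / 3 * vk G k Y (1 / 3) ≤ (1 + κ) * (ζ * vk G k Y ζ) ∨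
      (1 - κ) * (1 / 3 * vk G k Y (1 / 3)) ≤ ζ * vk G k Y ζ ∧
        ζ * vk G k Y ζ ≤ (1 + κ) * (1 / 3 * vk G k Y (1 / 3)) := by
    rcases le_total ζ (1 / 3) with hle | hle
    · obtain ⟨Y3, H3⟩ := vk_cmp K ζ (1 / 3) κ hζ hle hκ (by linarith)
      refine ⟨Y3, fun Y hY G k hK hm => Or.inl ?_⟩
      apply H3 Y hY G k hK
      rw [min_eq_left hle] at hm
      refine mer_anti _ _ _ _ _ _ _ _ _ hm le_rfl (by norm_num) ?_
      rintro p ⟨h1, h2⟩
      unfold pr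
      rw [mem_filter, mem_filter]
      constructor
      · rintro ⟨h3, h4, -, -⟩
        exact ⟨h3, h4, h1, h2⟩
      · rintro ⟨h3, h4, -, -⟩
        exact ⟨h3, h4, h1, by linarith⟩
    · obtain ⟨Y3, H3⟩ := vk_cmp K (1 / 3) ζ κ (by norm_num) hle hκ (by linarith)
      refine ⟨Y3, fun Y hY G k hK hm => Or.inr ?_⟩
      apply H3 Y hY G k hK
      rw [min_eq_right hle] at hm
      refine mer_anti _ _ _ _ _ _ _ _ _ hm le_rfl hζ2 ?_
      rintro p ⟨h1, h2⟩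
      unfold pr
      rw [mem_filter, mem_filter]
      constructor
      · rintro ⟨h3, h4, -, -⟩
        exact ⟨h3, h4, h1, h2⟩
      · rintro ⟨h3, h4, -, -⟩
        exact ⟨h3, h4, h1, by linarith⟩
  refine ⟨max (max Y1 Y2) (max Y3 3), fun Y hY G H hG hKG hH => ?_⟩
  have hY1 : Y1 ≤ Y := ((le_max_left _ _).trans (le_max_left _ _)).trans hY
  have hY2 : Y2 ≤ Y := ((le_max_right _ _).trans (le_max_left _ _)).trans hY
  have hY3 : Y3 ≤ Y := ((le_max_left _ _).trans (le_max_right _ _)).trans hY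
  have hY4 : 3 ≤ Y := ((le_max_right _ _).trans (le_max_right _ _)).trans hY
  have hYr : (3 : ℝ) ≤ Y := by exact_mod_cast hY4
  have hlY : 0 < Real.log Y := Real.log_pos (by linarith)
  have hroK : ∀ p : ℕ, p.Prime → ∀ k : ℤ, ro G k p ≤ K := fun p hp k => (ro_le G hG k p hp).trans hKG
  have hB := H1 Y hY1 G H hroK (by rw [Real.rpow_one]; exact hH)
  have hmax : max (2 * 1 / 3) (1 / 2 : ℝ) = 2 / 3 := by
    rw [max_eq_left (by norm_num)]
    norm_num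
  rw [hmax] at hB
  refine ⟨_, filter_subset _ _, hB, ?_⟩
  intro k hk hkB
  rw [mem_filter] at hkB
  have hm : Mer (pr Y (min ζ (1 / 3)) (1 / 2)) (tt Y) (fun p => (ro G k p : ℝ) / p) (min ζ (1 / 3)) (1 / 2)
      (κ / 4) := by
    by_contra h
    exact hkB ⟨hk, h⟩
  obtain ⟨m1, m2⟩ := H2 Y hY2
  have hM := MG_nonneg G k Y
  have hMG := MG_eq G k Y
  set M := MG G k Y with hMd
  set w := ∏ p ∈ PZ Y (1 / 3), (1 - 1 / (p : ℝ)) with hw
  set v := vk G k Y ζ with hv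
  set L := Real.log Y with hL
  have n1 : (1 - κ) * (g / L * M) ≤ 1 / 3 * vk G k Y (1 / 3) := by
    rw [← hMG]
    have h1 := mul_le_mul_of_nonneg_left m1 hM
    have e : M * ((1 - κ) * (g / (1 / 3 * L))) = 3 * ((1 - κ) * (g / L * M)) := by field_simp
    rw [e] at h1
    linarith
  have n2 : 1 / 3 * vk G k Y (1 / 3) ≤ (1 + κ) * (g / L * M) := by
    rw [← hMG]
    have h1 := mul_le_mul_of_nonneg_left m2 hM
    have e : M * ((1 + κ) * (g / (1 / 3 * L))) = 3 * ((1 + κ) * (g / L * M)) := by field_simp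
    rw [e] at h1
    linarith
  have hgL : 0 ≤ g / L * M := by positivity
  set q := g / L * M with hq
  have e1 : g / (ζ * L) * M = q / ζ := by rw [hq]; field_simp
  rw [e1]
  have goal1 : (1 - 3 * κ) * q ≤ ζ * v ∧ ζ * v ≤ (1 + 3 * κ) * q := by
    rcases H3 Y hY3 G k (fun p hp => hroK p hp k) hm with ⟨h1, h2⟩ | ⟨h1, h2⟩
    · constructor
      · -- (1 - κ) q ≤ w' ≤ (1 + κ) ζ v
        have h3 : (1 - κ) * q ≤ (1 + κ) * (ζ * v) := n1.trans h2
        have h4 : (1 + κ) * ((1 - 3 * κ) * q) ≤ (1 - κ) * q := by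
          have i1 := mul_nonneg hκ.le hgL
          have i2 := mul_nonneg (mul_nonneg hκ.le hκ.le) hgL
          nlinarith
        have h5 : (1 + κ) * ((1 - 3 * κ) * q) ≤ (1 + κ) * (ζ * v) := h4.trans h3
        exact le_of_mul_le_mul_left h5 (by linarith)
      · have h3 : (1 - κ) * (ζ * v) ≤ (1 + κ) * q := h1.trans n2
        have h4 : (1 + κ) * q ≤ (1 - κ) * ((1 + 3 * κ) * q) := by
          have : 0 ≤ κ * (1 - 3 * κ) * q := mul_nonneg (mul_nonneg hκ.le (by linarith)) hgL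
          nlinarith
        exact le_of_mul_le_mul_left (h3.trans h4) (by linarith)
    · constructor
      · have h3 : (1 - κ) * ((1 - κ) * q) ≤ ζ * v :=
          (mul_le_mul_of_nonneg_left n1 (by linarith)).trans h1
        have h4 : (1 - 3 * κ) * q ≤ (1 - κ) * ((1 - κ) * q) := by
          have i1 := mul_nonneg hκ.le hgL
          have i2 := mul_nonneg (mul_nonneg hκ.le hκ.le) hgL
          nlinarith
        exact h4.trans h3
      · have h3 : ζ * v ≤ (1 + κ) * ((1 + κ) * q) :=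
          h2.trans (mul_le_mul_of_nonneg_left n2 (by linarith))
        have h4 : (1 + κ) * ((1 + κ) * q) ≤ (1 + 3 * κ) * q := by
          have : 0 ≤ κ * (1 - κ) * q := mul_nonneg (mul_nonneg hκ.le (by linarith)) hgL
          nlinarith
        exact h3.trans h4
  constructor
  · rw [mul_div_assoc', div_le_iff₀ hζ]
    linarith [goal1.1]
  · rw [mul_div_assoc', le_div_iff₀ hζ]
    linarith [goal1.2]

open Classical in
/-- **The linear sieve for `G + k`, normalised.** -/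
theorem genM (K : ℕ) (A0 : ℝ) (F f : ℝ → ℝ) (hSF : SF A0 F f) (β τ s δ ε : ℝ) (hβ : 0 < β) (hτ0 : 0 < τ)
    (hτ : τ < 1) (hs : 1 ≤ s) (hs2 : 2 * τ ≤ s) (hδ : 0 < δ) (hε : 0 < ε) :
    ∃ Y0 : ℕ, ∀ Y : ℕ, Y0 ≤ Y →
      ∀ (G : ℤ[X]) (H X : ℕ), 1 ≤ G.natDegree → KF G ≤ K → (H : ℝ) ≤ Y → (Y : ℝ) ^ β ≤ X →
        ∃ B ⊆ Icc (-(H : ℤ)) (H : ℤ), (B.card : ℝ) ≤
          (Y : ℝ) ^ (2 / 3 + ε) + (H + (Y : ℝ) ^ (2 * τ)) / X * (Y : ℝ) ^ ε ∧
        ∀ k ∈ Icc (-(H : ℤ)) (H : ℤ), k ∉ B →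
          (f s - δ) * (Real.exp (-Real.eulerMascheroniConstant) * s / τ * MG G k Y * (X / Real.log Y)) ≤
            rk G k Y (τ / s) X ∧
          rk G k Y (τ / s) X ≤
            (F s + δ) * (Real.exp (-Real.eulerMascheroniConstant) * s / τ * MG G k Y * (X / Real.log Y)) := by
  set g := Real.exp (-Real.eulerMascheroniConstant) with hg
  have hg0 : 0 < g := Real.exp_pos _
  have hs0 : 0 < s := by linarith
  set ζ := τ / s with hζd
  have hζ : 0 < ζ := by positivity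
  have hζ2 : ζ ≤ 1 / 2 := by
    rw [hζd, div_le_iff₀ hs0]
    linarith
  have hζτ : ζ ≤ τ := div_le_self hτ0.le hs
  have hsζ : τ / ζ = s := by
    rw [hζd]
    field_simp
  -- the constants
  set A : ℝ := |f s| + |F s| + 2 with hA
  have hA0 : 0 < A := by positivity
  obtain ⟨κ, hκ0, hκ1, hκ2⟩ : ∃ κ : ℝ, 0 < κ ∧ κ ≤ 1 / 4 ∧ 3 * κ * A ≤ min δ 1 / 2 := by
    refine ⟨min (1 / 4) (min δ 1 / (6 * A)), ?_, min_le_left _ _, ?_⟩
    · have := lt_min hδ one_pos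
      positivity
    · have h1 : min (1 / 4) (min δ 1 / (6 * A)) ≤ min δ 1 / (6 * A) := min_le_right _ _
      calc 3 * min (1 / 4) (min δ 1 / (6 * A)) * A ≤ 3 * (min δ 1 / (6 * A)) * A := by gcongr
        _ = min δ 1 / 2 := by field_simp; norm_num
  set δ1 : ℝ := min δ 1 / 2 with hδ1
  have hδ10 : 0 < δ1 := by
    have := lt_min hδ one_pos
    rw [hδ1]; linarith
  have hδ1δ : δ1 ≤ δ / 2 := by
    have := min_le_left δ 1
    rw [hδ1]; linarith
  have hδ11 : δ1 ≤ 1 / 2 := by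
    have := min_le_right δ 1
    rw [hδ1]; linarith
  obtain ⟨Y1, H1⟩ := genK K A0 F f hSF β τ ζ 1 δ1 (ε / 2) hβ hζ hζ2 hζτ hτ one_pos le_rfl hδ10 (by linarith)
  obtain ⟨Y2, H2⟩ := cmpM K ζ κ (ε / 2) hζ hζ2 hκ0 hκ1 (by linarith)
  have ev3 : ∀ᶠ Y : ℕ in atTop, 2 ≤ (Y : ℝ) ^ (ε / 2) :=
    ((tendsto_rpow_atTop (by linarith)).comp tendsto_natCast_atTop_atTop).eventually_ge_atTop _
  obtain ⟨Y5, hY5⟩ := eventually_atTop.1 (ev3.and (eventually_ge_atTop 3))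
  refine ⟨max Y1 (max Y2 Y5), fun Y hY G H X hG hKG hH hX => ?_⟩
  have hY1 : Y1 ≤ Y := (le_max_left _ _).trans hY
  have hY2 : Y2 ≤ Y := ((le_max_left _ _).trans (le_max_right _ _)).trans hY
  obtain ⟨e2, e3⟩ := hY5 Y (((le_max_right _ _).trans (le_max_right _ _)).trans hY)
  have hYr : (3 : ℝ) ≤ Y := by exact_mod_cast e3
  have hY0 : (0 : ℝ) < Y := by linarith
  have hY1r : (1 : ℝ) ≤ Y := by linarith
  have hlY : 0 < Real.log Y := Real.log_pos (by linarith)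
  have hX0 : (0 : ℝ) < X := lt_of_lt_of_le (by positivity) hX
  have a1 := H1 Y hY1 G H X hG hKG (by rw [Real.rpow_one]; exact hH) hX
  obtain ⟨B2, hB2s, hB2c, hB2⟩ := H2 Y hY2 G H hG hKG hH
  set B1 := (Icc (-(H : ℤ)) (H : ℤ)).filter (fun k => ¬ ((f (τ / ζ) - δ1) * (X * vk G k Y ζ) ≤ rk G k Y ζ X ∧
          rk G k Y ζ X ≤ (F (τ / ζ) + δ1) * (X * vk G k Y ζ))) with hB1
  have hmax : max (2 * 1 / 3) ζ = 2 / 3 := by
    rw [max_eq_left (by linarith)]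
    norm_num
  rw [hmax] at a1
  refine ⟨B1 ∪ B2, union_subset (filter_subset _ _) hB2s, ?_, ?_⟩
  · have h1 : ((B1 ∪ B2).card : ℝ) ≤ B1.card + B2.card := by exact_mod_cast card_union_le _ _
    have h2 : (Y : ℝ) ^ (2 / 3 + ε) = (Y : ℝ) ^ (2 / 3 + ε / 2) * (Y : ℝ) ^ (ε / 2) := by
      rw [← Real.rpow_add hY0]
      congr 1
      ring
    have h3 : (0 : ℝ) < (Y : ℝ) ^ (2 / 3 + ε / 2) := by positivity
    have h4 : (Y : ℝ) ^ (ε / 2) ≤ (Y : ℝ) ^ ε := Real.rpow_le_rpow_of_exponent_le hY1r (by linarith)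
    have h5 : (H + (Y : ℝ) ^ (2 * τ)) / X * (Y : ℝ) ^ (ε / 2) ≤ (H + (Y : ℝ) ^ (2 * τ)) / X * (Y : ℝ) ^ ε :=
      mul_le_mul_of_nonneg_left h4 (by positivity)
    rw [h2]
    nlinarith
  · intro k hk hkB
    rw [mem_union, not_or] at hkB
    obtain ⟨c1, c2⟩ := hB2 k hk hkB.2
    have c3 : (f s - δ1) * (X * vk G k Y ζ) ≤ rk G k Y ζ X ∧
          rk G k Y ζ X ≤ (F s + δ1) * (X * vk G k Y ζ) := by
      by_contra h
      apply hkB.1
      rw [hB1, mem_filter, hsζ]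
      exact ⟨hk, h⟩
    have hM := MG_nonneg G k Y
    set M := MG G k Y with hMd
    set v := vk G k Y ζ with hv
    set L := Real.log Y with hL
    have hQ : g * s / τ * M * (X / L) = X * (g / (ζ * L) * M) := by
      rw [hζd]
      field_simp
    rw [hQ]
    set Q := (X : ℝ) * (g / (ζ * L) * M) with hQd
    have hQ0 : 0 ≤ Q := by positivity
    have d1 : (1 - 3 * κ) * Q ≤ X * v := by
      have := mul_le_mul_of_nonneg_left c1 hX0.le
      rw [hQd]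
      linarith
    have d2 : X * v ≤ (1 + 3 * κ) * Q := by
      have := mul_le_mul_of_nonneg_left c2 hX0.le
      rw [hQd]
      linarith
    have d3 : |X * v - Q| ≤ 3 * κ * Q := by
      rw [abs_le]
      constructor <;> linarith
    have hfA : |f s - δ1| ≤ A := by
      have := abs_sub (f s) δ1
      rw [abs_of_pos hδ10] at this
      have h2 := abs_nonneg (F s)
      rw [hA]; linarith
    have hFA : |F s + δ1| ≤ A := by
      have := abs_add_le (F s) δ1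
      rw [abs_of_pos hδ10] at this
      have h2 := abs_nonneg (f s)
      rw [hA]; linarith
    have key : ∀ t : ℝ, |t| ≤ A → |t * (X * v) - t * Q| ≤ δ / 2 * Q := by
      intro t ht
      rw [← mul_sub, abs_mul]
      calc |t| * |X * v - Q| ≤ A * (3 * κ * Q) := mul_le_mul ht d3 (abs_nonneg _) hA0.le
        _ = 3 * κ * A * Q := by ring
        _ ≤ δ / 2 * Q := mul_le_mul_of_nonneg_right (hκ2.trans hδ1δ) hQ0
    have k1 := (abs_le.1 (key _ hfA)).1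
    have k2 := (abs_le.1 (key _ hFA)).2
    have hδQ : δ1 * Q ≤ δ / 2 * Q := mul_le_mul_of_nonneg_right hδ1δ hQ0
    constructor
    · refine le_trans ?_ c3.1
      have : (f s - δ) * Q = (f s - δ1) * Q + δ1 * Q - δ * Q := by ring
      rw [this]
      linarith
    · refine c3.2.trans ?_
      have : (F s + δ) * Q = (F s + δ1) * Q - δ1 * Q + δ * Q := by ring
      rw [this]
      linarith

end Pool.Agent.Q148.KJ
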