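import Pool.Agent.Q148.KJ.Pt
import Pool.Agent.Y882.PY.Eng

/-! The linear sieve with the exact functions for the values of `G + k`, for all but few `k`. -/

set_option autoImplicit false

namespace Pool.Agent.Q148.KJ

open Finset Polynomial Filter
open Pool.Agent.W23.DC
open Pool.Agent.Y882
open Pool.Agent.Y882.PX
open Pool.Agent.Y882.PY

open Classical in
/-- the number of the `n ≤ X` such that `G(n) + k` has no prime factor in the sieving range -/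
noncomputable def rk (G : ℤ[X]) (k : ℤ) (Y : ℕ) (ζ : ℝ) (X : ℕ) : ℝ :=
  ((Icc 1 X).filter (fun n : ℕ => ∀ p ∈ PZ Y ζ, ¬ p ∣ (G.eval (n : ℤ) + k).natAbs)).card

/-- the sieve density -/
noncomputable def vk (G : ℤ[X]) (k : ℤ) (Y : ℕ) (ζ : ℝ) : ℝ := ∏ p ∈ PZ Y ζ, (1 - (ro G k p : ℝ) / p)

open Classical in
/-- the sums of weights -/
theorem wsumk (G : ℤ[X]) (k : ℤ) (P : Finset ℕ) (hP : ∀ p ∈ P, p.Prime) (c : Finset ℕ → ℝ) (X : ℕ) :
    ∑ n ∈ Icc 1 X, VV P c (fun p => if p ∣ (G.eval (n : ℤ) + k).natAbs then 1 else 0) =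
      X * VV P c (fun p => (ro G k p : ℝ) / p) + ∑ T ∈ P.powerset, c T * rr G k (∏ p ∈ T, p) X := by
  have h1 : (X : ℝ) * VV P c (fun p => (ro G k p : ℝ) / p) +
      ∑ T ∈ P.powerset, c T * rr G k (∏ p ∈ T, p) X =
      ∑ T ∈ P.powerset, c T * PX.cnt G k (∏ p ∈ T, p) X := by
    unfold VV
    rw [mul_sum, ← sum_add_distrib]
    apply sum_congr rfl
    intro T hT
    rw [mem_powerset] at hT
    unfold rr
    rw [ro_prod G k T (fun p hp => hP p (hT hp))]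
    push_cast
    rw [prod_div_distrib]
    ring
  rw [h1]
  unfold VV
  rw [sum_comm]
  apply sum_congr rfl
  intro T hT
  rw [mem_powerset] at hT
  unfold PX.cnt
  rw [card_filter]
  push_cast
  rw [mul_sum]
  apply sum_congr rfl
  intro n _
  rw [PX.prod_ind T (fun p hp => hP p (hT hp))]
  congr 1
  have h3 : (((∏ p ∈ T, p : ℕ) : ℤ) ∣ G.eval (n : ℤ) + k) ↔
      (∏ p ∈ T, p) ∣ (G.eval (n : ℤ) + k).natAbs := Int.natCast_dvd
  push_cast at h3
  by_cases h4 : (∏ p ∈ T, p) ∣ (G.eval (n : ℤ) + k).natAbs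
  · rw [if_pos (h3.2 h4), if_pos h4]
  · rw [if_neg (fun h => h4 (h3.1 h)), if_neg h4]

open Classical in
/-- **The engine.** -/
theorem genK (K : ℕ) (A0 : ℝ) (F f : ℝ → ℝ) (hSF : SF A0 F f) (β τ ζ h δ ε : ℝ) (hβ : 0 < β) (hζ : 0 < ζ)
    (hζ2 : ζ ≤ 1 / 2) (h1 : ζ ≤ τ) (hτ : τ < 1) (hh : 0 < h) (hh1 : h ≤ 1) (hδ : 0 < δ) (hε : 0 < ε) :
    ∃ Y0 : ℕ, ∀ Y : ℕ, Y0 ≤ Y →
      ∀ (G : ℤ[X]) (H X : ℕ), 1 ≤ G.natDegree → KF G ≤ K → (H : ℝ) ≤ (Y : ℝ) ^ h → (Y : ℝ) ^ β ≤ X →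
        (((Icc (-(H : ℤ)) (H : ℤ)).filter (fun k => ¬ ((f (τ / ζ) - δ) * (X * vk G k Y ζ) ≤ rk G k Y ζ X ∧
          rk G k Y ζ X ≤ (F (τ / ζ) + δ) * (X * vk G k Y ζ)))).card : ℝ) ≤
          (Y : ℝ) ^ (max (2 * h / 3) ζ + ε) + (H + (Y : ℝ) ^ (2 * τ)) / X * (Y : ℝ) ^ ε := by
  obtain ⟨s, hs0, hs1, hs2⟩ : ∃ s : ℝ, 0 < s ∧ s ≤ ε / 8 ∧ s ≤ 1 - τ :=
    ⟨min (ε / 8) (1 - τ), lt_min (by linarith) (by linarith), min_le_left _ _, min_le_right _ _⟩
  set τ' : ℝ := τ + s with hτ'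
  have hττ' : τ < τ' := by linarith
  obtain ⟨ε₁, η, hε₁, hε₁ζ, hη, Y1, HC⟩ := ptw K A0 F f hSF τ ζ τ' δ hζ h1 hτ.le hττ' hδ
  obtain ⟨Y2, HE⟩ := few_err2 K β τ' ε hβ (by linarith) (by linarith) hε
  obtain ⟨Y3, HM⟩ := mer_ro2 K ε₁ ζ η h ε hε₁ hζ2 hh hh1 hη hε
  obtain ⟨Y4, HL⟩ := vlow K ζ (ε / 32) hζ (by linarith) (by linarith)
  have ev2 : ∀ᶠ Y : ℕ in atTop, 2 / δ ≤ (Y : ℝ) ^ (ε / 32) :=
    ((tendsto_rpow_atTop (by linarith)).comp tendsto_natCast_atTop_atTop).eventually_ge_atTop _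
  have ev3 : ∀ᶠ Y : ℕ in atTop, 2 ≤ (Y : ℝ) ^ (ε / 4) :=
    ((tendsto_rpow_atTop (by linarith)).comp tendsto_natCast_atTop_atTop).eventually_ge_atTop _
  obtain ⟨Y5, hY5⟩ := eventually_atTop.1 (ev2.and (ev3.and (eventually_ge_atTop 3)))
  refine ⟨max (max Y1 Y2) (max (max Y3 Y4) Y5), ?_⟩
  intro Y hY G H X hG hKG hH hX
  have hYY1 : Y1 ≤ Y := ((le_max_left _ _).trans (le_max_left _ _)).trans hY
  have hYY2 : Y2 ≤ Y := ((le_max_right _ _).trans (le_max_left _ _)).trans hY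
  have hYY3 : Y3 ≤ Y := ((le_max_left _ _).trans ((le_max_left _ _).trans (le_max_right _ _))).trans hY
  have hYY4 : Y4 ≤ Y := ((le_max_right _ _).trans ((le_max_left _ _).trans (le_max_right _ _))).trans hY
  obtain ⟨e2, e2', e3⟩ := hY5 Y (((le_max_right _ _).trans (le_max_right _ _)).trans hY)
  have hYr : (3 : ℝ) ≤ Y := by exact_mod_cast e3
  have hY0 : (0 : ℝ) < Y := by linarith
  have hY1r : (1 : ℝ) ≤ Y := by linarith
  have hX0 : (0 : ℝ) < X := lt_of_lt_of_le (by positivity) hX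
  have hroK : ∀ p : ℕ, p.Prime → ∀ k : ℤ, ro G k p ≤ K := fun p hp k => (ro_le G hG k p hp).trans hKG
  obtain ⟨wU, wL, c1, c2, c3⟩ := HC Y hYY1
  have hPZ : ∀ p ∈ PZ Y ζ, p.Prime := fun p hp => (PZ_mem Y (by omega) ζ p hp).1
  have hA1 := HE Y hYY2 G (PZ Y ζ) wU H X hPZ (fun p hp k => hroK p (hPZ p hp) k)
    (fun T => (c1 T).1) (fun T hT h0 => c2 T hT (Or.inl h0)) hX
  have hA2 := HE Y hYY2 G (PZ Y ζ) wL H X hPZ (fun p hp k => hroK p (hPZ p hp) k)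
    (fun T => (c1 T).2) (fun T hT h0 => c2 T hT (Or.inr h0)) hX
  have hB := HM Y hYY3 G H hroK hH
  set A1 := (Icc (-(H : ℤ)) (H : ℤ)).filter (fun k => (X : ℝ) * (Y : ℝ) ^ (-(ε / 16)) <
        |∑ T ∈ (PZ Y ζ).powerset, wU T * rr G k (∏ p ∈ T, p) X|) with hA1d
  set A2 := (Icc (-(H : ℤ)) (H : ℤ)).filter (fun k => (X : ℝ) * (Y : ℝ) ^ (-(ε / 16)) <
        |∑ T ∈ (PZ Y ζ).powerset, wL T * rr G k (∏ p ∈ T, p) X|) with hA2d
  set B := (Icc (-(H : ℤ)) (H : ℤ)).filter (fun k => ¬ Mer (pr Y ε₁ ζ) (tt Y)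
        (fun p => (ro G k p : ℝ) / p) ε₁ ζ η) with hBd
  have hsub : (Icc (-(H : ℤ)) (H : ℤ)).filter (fun k => ¬ ((f (τ / ζ) - δ) * (X * vk G k Y ζ) ≤ rk G k Y ζ X ∧
          rk G k Y ζ X ≤ (F (τ / ζ) + δ) * (X * vk G k Y ζ))) ⊆ B ∪ (A1 ∪ A2) := by
    intro k hk
    rw [mem_filter] at hk
    rw [mem_union, mem_union]
    by_contra hcon
    push Not at hcon
    obtain ⟨hc0, hc1, hc2⟩ := hcon
    apply hk.2
    have hmer : Mer (pr Y ε₁ ζ) (tt Y) (fun p => (ro G k p : ℝ) / p) ε₁ ζ η := by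
      by_contra h'
      exact hc0 (by rw [hBd, mem_filter]; exact ⟨hk.1, h'⟩)
    have g1 : |∑ T ∈ (PZ Y ζ).powerset, wU T * rr G k (∏ p ∈ T, p) X| ≤
        (X : ℝ) * (Y : ℝ) ^ (-(ε / 16)) := by
      by_contra h'
      exact hc1 (by rw [hA1d, mem_filter]; exact ⟨hk.1, not_le.1 h'⟩)
    have g2 : |∑ T ∈ (PZ Y ζ).powerset, wL T * rr G k (∏ p ∈ T, p) X| ≤
        (X : ℝ) * (Y : ℝ) ^ (-(ε / 16)) := by
      by_contra h'
      exact hc2 (by rw [hA2d, mem_filter]; exact ⟨hk.1, not_le.1 h'⟩)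
    by_cases hfull : ∃ p ∈ PZ Y ζ, ro G k p = p
    · obtain ⟨p, hp, hpr⟩ := hfull
      have v0 : vk G k Y ζ = 0 := by
        unfold vk
        apply prod_eq_zero hp
        rw [hpr]
        have : (p : ℝ) ≠ 0 := by exact_mod_cast (hPZ p hp).ne_zero
        rw [div_self this, sub_self]
      have r0 : rk G k Y ζ X = 0 := by
        unfold rk
        rw [Nat.cast_eq_zero, card_eq_zero, filter_eq_empty_iff]
        intro n _ hn
        apply hn p hp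
        rw [ro_eq] at hpr
        have h2 : (range p).filter (fun n : ℕ => (p : ℤ) ∣ G.eval (n : ℤ) + k) = range p := by
          apply eq_of_subset_of_card_le (filter_subset _ _)
          rw [card_range, hpr]
        have h3 : n % p ∈ (range p).filter (fun n : ℕ => (p : ℤ) ∣ G.eval (n : ℤ) + k) := by
          rw [h2, mem_range]
          exact Nat.mod_lt _ (hPZ p hp).pos
        rw [mem_filter] at h3
        rw [← Int.natCast_dvd]
        have h4 : (n : ℤ) - ((n % p : ℕ) : ℤ) ∣ G.eval (n : ℤ) - G.eval ((n % p : ℕ) : ℤ) :=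
          sub_dvd_eval_sub _ _ _
        have h5 : (p : ℤ) ∣ (n : ℤ) - ((n % p : ℕ) : ℤ) := by
          push_cast
          exact Int.dvd_self_sub_emod
        have h6 : G.eval (n : ℤ) + k =
            (G.eval (n : ℤ) - G.eval ((n % p : ℕ) : ℤ)) + (G.eval ((n % p : ℕ) : ℤ) + k) := by ring
        rw [h6]
        exact dvd_add (h5.trans h4) h3.2
      rw [v0, r0]
      simp
    push Not at hfull
    have hlt : ∀ p ∈ PZ Y ζ, ro G k p + 1 ≤ p := by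
      intro p hp
      have h1 := ro_le_self G k p
      have h2 := hfull p hp
      omega
    have hV := HL Y hYY4 (fun p => ro G k p) (fun p hp => hroK p (hPZ p hp) k) hlt
    have herr : (X : ℝ) * (Y : ℝ) ^ (-(ε / 16)) ≤ δ / 2 * (X * ∏ p ∈ PZ Y ζ, (1 - (ro G k p : ℝ) / p)) := by
      have h2 : (Y : ℝ) ^ (-(ε / 16)) = (Y : ℝ) ^ (-(ε / 32)) * (Y : ℝ) ^ (-(ε / 32)) := by
        rw [← Real.rpow_add hY0]
        congr 1
        ring
      have h3 : (Y : ℝ) ^ (-(ε / 32)) ≤ δ / 2 := by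
        rw [Real.rpow_neg hY0.le, inv_le_comm₀ (by positivity) (by positivity)]
        rw [inv_div]
        exact e2
      rw [h2]
      calc (X : ℝ) * ((Y : ℝ) ^ (-(ε / 32)) * (Y : ℝ) ^ (-(ε / 32))) ≤
          X * (δ / 2 * ∏ p ∈ PZ Y ζ, (1 - (ro G k p : ℝ) / p)) := by
            apply mul_le_mul_of_nonneg_left _ hX0.le
            exact mul_le_mul h3 hV (by positivity) (by positivity)
        _ = _ := by ring
    have hfin := c3 X (fun n => (G.eval (n : ℤ) + k).natAbs) (fun p => (ro G k p : ℝ) / p)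
      ((X : ℝ) * (Y : ℝ) ^ (-(ε / 16))) (fun p _ => by positivity) (by
      intro p hp
      have hp0 : (0 : ℝ) < p := by exact_mod_cast (hPZ p hp).pos
      have h1 : (ro G k p : ℝ) ≤ p := by exact_mod_cast ro_le_self G k p
      show (ro G k p : ℝ) / p ≤ 1
      rw [div_le_one hp0]
      exact h1) (by
      intro p hp _
      have hp0 : (2 : ℝ) ≤ p := by exact_mod_cast (hPZ p hp).two_le
      have h1 : (ro G k p : ℝ) ≤ K := by exact_mod_cast hroK p (hPZ p hp) k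
      show (ro G k p : ℝ) / p ≤ K / ((p : ℝ) - 1)
      apply div_le_div₀ (Nat.cast_nonneg _) h1 (by linarith) (by linarith)) hmer
      (by rw [wsumk G k (PZ Y ζ) hPZ wU X, add_sub_cancel_left]; exact g1)
      (by rw [wsumk G k (PZ Y ζ) hPZ wL X, add_sub_cancel_left]; exact g2) herr
    exact hfin
  have hA : (A1.card : ℝ) + A2.card ≤ (H + (Y : ℝ) ^ (2 * τ)) / X * (Y : ℝ) ^ ε := by
    calc (A1.card : ℝ) + A2.card ≤ 2 * ((H + (Y : ℝ) ^ (2 * τ')) / X * (Y : ℝ) ^ (ε / 2)) := by linarith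
      _ ≤ (Y : ℝ) ^ (ε / 4) * (((H + (Y : ℝ) ^ (2 * τ)) * (Y : ℝ) ^ (ε / 4)) / X * (Y : ℝ) ^ (ε / 2)) := by
          apply mul_le_mul e2' _ (by positivity) (by positivity)
          apply mul_le_mul_of_nonneg_right _ (by positivity)
          apply div_le_div_of_nonneg_right _ hX0.le
          have h1 : (Y : ℝ) ^ (2 * τ') ≤ (Y : ℝ) ^ (2 * τ) * (Y : ℝ) ^ (ε / 4) := by
            rw [← Real.rpow_add hY0]
            exact Real.rpow_le_rpow_of_exponent_le hY1r (by linarith)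
          have h3 : (1 : ℝ) ≤ (Y : ℝ) ^ (ε / 4) := Real.one_le_rpow hY1r (by linarith)
          have h4 : (0 : ℝ) ≤ H := Nat.cast_nonneg _
          nlinarith
      _ = (H + (Y : ℝ) ^ (2 * τ)) / X * ((Y : ℝ) ^ (ε / 4) * (Y : ℝ) ^ (ε / 4) * (Y : ℝ) ^ (ε / 2)) := by ring
      _ = _ := by
          rw [← Real.rpow_add hY0, ← Real.rpow_add hY0]
          congr 2
          ring
  have hcard := (card_le_card hsub).trans ((card_union_le _ _).trans (add_le_add le_rfl (card_union_le _ _)))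
  have hcard' : (((Icc (-(H : ℤ)) (H : ℤ)).filter (fun k => ¬ ((f (τ / ζ) - δ) * (X * vk G k Y ζ) ≤
      rk G k Y ζ X ∧ rk G k Y ζ X ≤ (F (τ / ζ) + δ) * (X * vk G k Y ζ)))).card : ℝ) ≤
      (B.card : ℝ) + (A1.card + A2.card) := by exact_mod_cast hcard
  linarith

end Pool.Agent.Q148.KJ
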