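import Pool.Agent.Y882.JR.Core5
import Pool.Agent.Y882.PX.LowX

/-! The linear sieve with the exact functions, for an arbitrary sequence of integers: the pointwise part. -/

set_option autoImplicit false

namespace Pool.Agent.Q148.KJ

open Finset Filter
open Pool.Agent.W23.DC
open Pool.Agent.Y882
open Pool.Agent.Y882.JR

open Classical in
/-- **The linear sieve for a sequence `N n`, `n ≤ X`**, with universal weights. -/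
theorem ptw (κ : ℕ) (A0 : ℝ) (F f : ℝ → ℝ) (hSF : SF A0 F f) (τ ζ τ' δ : ℝ) (hζ : 0 < ζ)
    (h1 : ζ ≤ τ) (hτ : τ ≤ 1) (h5 : τ < τ') (hδ : 0 < δ) : ∃ ε₁ η : ℝ, 0 < ε₁ ∧ ε₁ ≤ ζ ∧ 0 < η ∧
      ∃ Y0 : ℕ, ∀ Y : ℕ, Y0 ≤ Y → ∃ wU wL : Finset ℕ → ℝ,
      (∀ T, |wU T| ≤ 5 * Real.log Y ∧ |wL T| ≤ 5 * Real.log Y) ∧
      (∀ T ⊆ PZ Y ζ, (wU T ≠ 0 ∨ wL T ≠ 0) → ((∏ p ∈ T, p : ℕ) : ℝ) ≤ (Y : ℝ) ^ τ') ∧
      ∀ (X : ℕ) (N : ℕ → ℕ) (g : ℕ → ℝ) (E : ℝ), (∀ p ∈ PZ Y ζ, 0 ≤ g p) → (∀ p ∈ PZ Y ζ, g p ≤ 1) →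
        (∀ p ∈ PZ Y ζ, κ < p → g p ≤ κ / ((p : ℝ) - 1)) → Mer (pr Y ε₁ ζ) (tt Y) g ε₁ ζ η →
        |∑ n ∈ Icc 1 X, VV (PZ Y ζ) wU (fun p => if p ∣ N n then 1 else 0) - X * VV (PZ Y ζ) wU g| ≤ E →
        |∑ n ∈ Icc 1 X, VV (PZ Y ζ) wL (fun p => if p ∣ N n then 1 else 0) - X * VV (PZ Y ζ) wL g| ≤ E →
        E ≤ δ / 2 * (X * ∏ p ∈ PZ Y ζ, (1 - g p)) →
        (f (τ / ζ) - δ) * (X * ∏ p ∈ PZ Y ζ, (1 - g p)) ≤
          (((Icc 1 X).filter (fun n : ℕ => ∀ p ∈ PZ Y ζ, ¬ p ∣ N n)).card : ℝ) ∧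
        (((Icc 1 X).filter (fun n : ℕ => ∀ p ∈ PZ Y ζ, ¬ p ∣ N n)).card : ℝ) ≤
          (F (τ / ζ) + δ) * (X * ∏ p ∈ PZ Y ζ, (1 - g p)) := by
  obtain ⟨ε₁, η, hε₁, hε₁ζ, hη, Y1, HC⟩ :=
    core5 κ A0 F f hSF τ ζ τ' (δ / 2) hζ h1 hτ h5 (by linarith)
  refine ⟨ε₁, η, hε₁, hε₁ζ, hη, Y1, fun Y hY => ?_⟩
  obtain ⟨wU, wL, c1, c2, c3, c4⟩ := HC Y hY
  refine ⟨wU, wL, c1, c2, ?_⟩
  intro X N g E hg0 hg1 hg2 hmer e1 e2 e3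
  obtain ⟨m1, m2⟩ := c4 g hg0 hg1 hg2 hmer
  set V := ∏ p ∈ PZ Y ζ, (1 - g p) with hV
  have hr : (((Icc 1 X).filter (fun n : ℕ => ∀ p ∈ PZ Y ζ, ¬ p ∣ N n)).card : ℝ) =
      ∑ n ∈ Icc 1 X, (if ∀ p ∈ PZ Y ζ, ¬ p ∣ N n then (1 : ℝ) else 0) := by
    rw [card_filter]
    push_cast
    rfl
  have hX0 : (0 : ℝ) ≤ X := Nat.cast_nonneg _
  constructor
  · have g3 : ∑ n ∈ Icc 1 X, VV (PZ Y ζ) wL (fun p => if p ∣ N n then 1 else 0) ≤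
        (((Icc 1 X).filter (fun n : ℕ => ∀ p ∈ PZ Y ζ, ¬ p ∣ N n)).card : ℝ) := by
      rw [hr]
      exact sum_le_sum fun n _ => (c3 _).1
    have g4 := mul_le_mul_of_nonneg_left m1 hX0
    have g5 := neg_le_of_abs_le e2
    have g6 : (f (τ / ζ) - δ) * (X * V) = X * ((f (τ / ζ) - δ / 2) * V) - δ / 2 * (X * V) := by ring
    rw [g6]
    linarith
  · have g3 : (((Icc 1 X).filter (fun n : ℕ => ∀ p ∈ PZ Y ζ, ¬ p ∣ N n)).card : ℝ) ≤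
        ∑ n ∈ Icc 1 X, VV (PZ Y ζ) wU (fun p => if p ∣ N n then 1 else 0) := by
      rw [hr]
      exact sum_le_sum fun n _ => (c3 _).2
    have g4 := mul_le_mul_of_nonneg_left m2 hX0
    have g5 := le_of_abs_le e1
    have g6 : (F (τ / ζ) + δ) * (X * V) = X * ((F (τ / ζ) + δ / 2) * V) + δ / 2 * (X * V) := by ring
    rw [g6]
    linarith

theorem PZ_mem (Y : ℕ) (hY : 2 ≤ Y) (ζ : ℝ) (p : ℕ) (hp : p ∈ PZ Y ζ) :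
    p.Prime ∧ p ≤ Y ∧ (p : ℝ) < (Y : ℝ) ^ ζ := by
  unfold PZ at hp
  rw [mem_filter, mem_Icc] at hp
  exact ⟨hp.2.1, hp.1.2, (tt_lt Y p ζ hY hp.2.1.pos).1 hp.2.2⟩

/-- the local density is not small -/
theorem vlow (K : ℕ) (ζ ε : ℝ) (hζ : 0 < ζ) (hζ1 : ζ ≤ 1) (hε : 0 < ε) : ∃ Y0 : ℕ, ∀ Y : ℕ, Y0 ≤ Y →
    ∀ r : ℕ → ℕ, (∀ p ∈ PZ Y ζ, r p ≤ K) → (∀ p ∈ PZ Y ζ, r p + 1 ≤ p) →
      (Y : ℝ) ^ (-ε) ≤ ∏ p ∈ PZ Y ζ, (1 - (r p : ℝ) / p) := by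
  obtain ⟨c0, hc0, HV⟩ := PX.V_low K
  obtain ⟨Y4, HJ⟩ := exJ ζ hζ
  have ev1 : ∀ᶠ Y : ℕ in atTop, (3 * Real.log Y) ^ (2 * K) ≤ (Y : ℝ) ^ (ε / 2) := by
    have h1 : Tendsto (fun x : ℝ => Real.log x ^ ((2 * K : ℕ) : ℝ) / x ^ (ε / 2)) atTop (nhds 0) := by
      have := isLittleO_log_rpow_rpow_atTop (((2 * K : ℕ) : ℝ)) (show 0 < ε / 2 by linarith)
      exact this.tendsto_div_nhds_zero
    have h2 := h1.eventually_le_const (show (0 : ℝ) < 1 / (3 ^ (2 * K)) by positivity)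
    have h3 := tendsto_natCast_atTop_atTop.eventually (h2.and (eventually_gt_atTop (0 : ℝ)))
    filter_upwards [h3] with X hX
    obtain ⟨h4, h5⟩ := hX
    have h6 : (0 : ℝ) < (X : ℝ) ^ (ε / 2) := by positivity
    rw [div_le_div_iff₀ h6 (by positivity), one_mul, Real.rpow_natCast] at h4
    rw [mul_pow]
    linarith
  have ev2 : ∀ᶠ Y : ℕ in atTop, 1 / c0 ≤ (Y : ℝ) ^ (ε / 2) :=
    tendsto_natCast_atTop_atTop.eventually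
      ((tendsto_rpow_atTop (by linarith)).eventually_ge_atTop _)
  obtain ⟨Y5, hY5⟩ := eventually_atTop.1 (ev1.and (ev2.and (eventually_ge_atTop 3)))
  refine ⟨max Y4 Y5, fun Y hY r hr1 hr2 => ?_⟩
  have hY4 : Y4 ≤ Y := (le_max_left _ _).trans hY
  obtain ⟨e1, e2, e3⟩ := hY5 Y ((le_max_right _ _).trans hY)
  have hYr : (3 : ℝ) ≤ Y := by exact_mod_cast e3
  have hY0 : (0 : ℝ) < Y := by linarith
  have hlY1 : 1 ≤ Real.log Y := by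
    rw [Real.le_log_iff_exp_le (by linarith)]
    linarith [Real.exp_one_lt_d9]
  obtain ⟨J, hJ1, hJ2⟩ := HJ Y hY4
  have hJlog : (2 : ℝ) ^ J ≤ 3 * Real.log Y := by
    have h6 := Real.log_le_log (by positivity) hJ2
    rw [Real.log_rpow (by linarith), Real.log_pow] at h6
    push_cast at h6
    have h7 : 0.69 < Real.log 2 := by linarith [Real.log_two_gt_d9]
    have h8 : (2 : ℝ) ^ J * 0.69 ≤ (2 : ℝ) ^ J * Real.log 2 :=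
      mul_le_mul_of_nonneg_left h7.le (by positivity)
    have h9 : 2 * ζ * Real.log Y ≤ 2 * Real.log Y :=
      mul_le_mul_of_nonneg_right (by linarith) (by linarith)
    linarith
  have hlow := HV J (PZ Y ζ) (fun p => (r p : ℝ)) (by
    intro p hp
    obtain ⟨g1, g2, g3⟩ := PZ_mem Y (by omega) ζ p hp
    refine ⟨g1, ?_⟩
    have := g3.trans_le hJ1
    exact_mod_cast this) (by
    intro p hp
    exact_mod_cast hr1 p hp) (by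
    intro p hp
    have h4 : (r p : ℝ) + 1 ≤ p := by exact_mod_cast hr2 p hp
    linarith)
  refine le_trans ?_ hlow
  rw [one_div_pow, mul_one_div, le_div_iff₀ (by positivity)]
  have h1 : ((2 : ℝ) ^ J) ^ (2 * K) ≤ (Y : ℝ) ^ (ε / 2) :=
    (pow_le_pow_left₀ (by positivity) hJlog _).trans e1
  have h2 : 1 ≤ c0 * (Y : ℝ) ^ (ε / 2) := by
    rw [div_le_iff₀ hc0] at e2
    linarith
  calc (Y : ℝ) ^ (-ε) * ((2 : ℝ) ^ J) ^ (2 * K) ≤ (Y : ℝ) ^ (-ε) * (Y : ℝ) ^ (ε / 2) :=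
        mul_le_mul_of_nonneg_left h1 (by positivity)
    _ = (Y : ℝ) ^ (-(ε / 2)) := by
        rw [← Real.rpow_add hY0]
        congr 1
        ring
    _ ≤ (Y : ℝ) ^ (-(ε / 2)) * (c0 * (Y : ℝ) ^ (ε / 2)) := le_mul_of_one_le_right (by positivity) h2
    _ = c0 * ((Y : ℝ) ^ (-(ε / 2)) * (Y : ℝ) ^ (ε / 2)) := by ring
    _ = c0 := by
        rw [← Real.rpow_add hY0, neg_add_cancel, Real.rpow_zero, mul_one]

end Pool.Agent.Q148.KJ
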