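import Pool.Agent.Q148.KJ.Norm
import Pool.Agent.W468.ConjFDefs

/-! Quadratic polynomials: local factors, small values, almost primes. -/

set_option autoImplicit false

namespace Pool.Agent.Q148.KJ

open Finset Polynomial Filter Topology
open Pool.Agent.W23.DC
open Pool.Agent.Y882
open Pool.Agent.Y882.PX
open Pool.Agent.Y882.PY
open Pool.Agent.W468.ConjF (nr nr_odd nr_lin nr_none nr_two)

/-- the polynomial `a X ^ 2 + b X` -/
noncomputable def QG (a b : ℤ) : ℤ[X] := C a * X ^ 2 + C b * X + C 0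

theorem QG_eval (a b t : ℤ) : (QG a b).eval t = a * t ^ 2 + b * t := by
  simp [QG]

theorem QG_deg (a b : ℤ) (ha : 0 < a) : (QG a b).natDegree = 2 := natDegree_quadratic ha.ne'

theorem QG_lead (a b : ℤ) (ha : 0 < a) : (QG a b).leadingCoeff = a := leadingCoeff_quadratic ha.ne'

theorem QG_KF (a b : ℤ) (K : ℕ) (ha : 0 < a) (haK : a ≤ K) : KF (QG a b) ≤ K + 2 := by
  unfold KF
  rw [QG_deg a b ha, QG_lead a b ha]
  apply max_le
  · omega
  · omega

theorem ro_QG (a b c : ℤ) (p : ℕ) : ro (QG a b) c p = nr a b c p := by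
  rw [ro_eq]
  unfold nr
  congr 1
  apply filter_congr
  intro n _
  rw [QG_eval]

/-- there is no fixed prime divisor of the values of `a m ^ 2 + b m + c` -/
def Free (a b c : ℤ) : Prop :=
  (∀ p : ℕ, p.Prime → ¬ ((p : ℤ) ∣ a ∧ (p : ℤ) ∣ b ∧ (p : ℤ) ∣ c)) ∧ ¬ ((2 : ℤ) ∣ a + b ∧ (2 : ℤ) ∣ c)

theorem nr_lt (a b c : ℤ) (h : Free a b c) (p : ℕ) (hp : p.Prime) : nr a b c p + 1 ≤ p := by
  rcases hp.eq_two_or_odd with rfl | hodd
  · rw [nr_two a b c h.2]
    split_ifs <;> omega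
  · have hp3 : 3 ≤ p := by
      have := hp.two_le
      omega
    by_cases hpa : (p : ℤ) ∣ a
    · by_cases hpb : (p : ℤ) ∣ b
      · rw [nr_none a b c p hpa hpb (fun hc => h.1 p hp ⟨hpa, hpb, hc⟩)]
        omega
      · rw [nr_lin a b c p hp hpa hpb]
        omega
    · have h1 := nr_odd a b c p hp hp3 hpa
      have h2 : jacobiSym (b ^ 2 - 4 * a * c) p ≤ 1 := by
        rcases jacobiSym.trichotomy (b ^ 2 - 4 * a * c) p with h | h | h <;> rw [h] <;> norm_num
      omega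

/-- the constant of Hardy and Littlewood, cut at `z` -/
noncomputable def HLc (a b c : ℤ) (z : ℝ) : ℝ :=
  (if (2 : ℤ) ∣ a + b then 2 else 1) *
  (∏ p ∈ (range ⌈z⌉₊).filter (fun p : ℕ => p.Prime ∧ 3 ≤ p ∧ (p : ℤ) ∣ a ∧ (p : ℤ) ∣ b), (p : ℝ) / (p - 1)) *
  ∏ p ∈ (range ⌈z⌉₊).filter (fun p : ℕ => p.Prime ∧ 3 ≤ p ∧ ¬ (p : ℤ) ∣ a),
    (1 - (jacobiSym (b ^ 2 - 4 * a * c) p : ℝ) / (p - 1))

theorem MG_QG (a b c : ℤ) (h : Free a b c) (Y : ℕ) (hY : 27 ≤ Y) :
    MG (QG a b) c Y = HLc a b c ((Y : ℝ) ^ (1 / 3 : ℝ)) := by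
  classical
  have hYr : (27 : ℝ) ≤ Y := by exact_mod_cast hY
  unfold MG
  rw [Pool.Agent.Y882.JR.PZ_eq Y (by omega) (1 / 3) (by norm_num)]
  obtain ⟨z, hz⟩ : ∃ z, z = ⌈(Y : ℝ) ^ (1 / 3 : ℝ)⌉₊ := ⟨_, rfl⟩
  have hz3 : 3 ≤ z := by
    have h1 : (3 : ℝ) ≤ (Y : ℝ) ^ (1 / 3 : ℝ) := by
      have h2 : ((27 : ℝ)) ^ (1 / 3 : ℝ) = 3 := by
        rw [show (27 : ℝ) = 3 ^ (3 : ℝ) by norm_num, ← Real.rpow_mul (by norm_num)]
        norm_num
      calc (3 : ℝ) = (27 : ℝ) ^ (1 / 3 : ℝ) := h2.symm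
        _ ≤ _ := Real.rpow_le_rpow (by norm_num) hYr (by norm_num)
    have h2 := h1.trans (Nat.le_ceil _)
    rw [← hz] at h2
    exact_mod_cast h2
  unfold HLc
  rw [← hz]
  set S := (range z).filter Nat.Prime with hS
  have h2S : 2 ∈ S := by
    rw [hS, mem_filter, mem_range]; exact ⟨by omega, Nat.prime_two⟩
  set S3 := S.filter (fun p => 3 ≤ p) with hS3
  have hSplit : S = insert 2 S3 := by
    ext p
    simp only [hS3, mem_insert, mem_filter]
    constructor
    · intro hp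
      by_cases h3 : 3 ≤ p
      · exact Or.inr ⟨hp, h3⟩
      · left
        have : p.Prime := (mem_filter.1 hp).2
        have := this.two_le
        omega
    · rintro (rfl | hp)
      · exact h2S
      · exact hp.1
  have hn2 : 2 ∉ S3 := by
    rw [hS3, mem_filter]; omega
  rw [hSplit, prod_insert hn2]
  -- the factors at odd primes
  have fac : ∀ p ∈ S3, (1 - (ro (QG a b) c p : ℝ) / p) / (1 - 1 / (p : ℝ)) =
      (if (p : ℤ) ∣ a ∧ (p : ℤ) ∣ b then (p : ℝ) / (p - 1) else 1) *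
      (if ¬ (p : ℤ) ∣ a then 1 - (jacobiSym (b ^ 2 - 4 * a * c) p : ℝ) / (p - 1) else 1) := by
    intro p hp
    rw [hS3, mem_filter, hS, mem_filter] at hp
    obtain ⟨⟨-, hpp⟩, hp3⟩ := hp
    rw [ro_QG]
    have hpr : (1 : ℝ) < p := by exact_mod_cast hpp.one_lt
    have hp0 : (p : ℝ) ≠ 0 := by positivity
    have hp1 : (p : ℝ) - 1 ≠ 0 := by linarith
    by_cases hpa : (p : ℤ) ∣ a
    · by_cases hpb : (p : ℤ) ∣ b
      · rw [if_pos ⟨hpa, hpb⟩, if_neg (not_not.2 hpa),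
          nr_none a b c p hpa hpb (fun hc => h.1 p hpp ⟨hpa, hpb, hc⟩)]
        simp only [Nat.cast_zero, zero_div, sub_zero, mul_one]
        field_simp
      · rw [if_neg (fun h => hpb h.2), if_neg (not_not.2 hpa), nr_lin a b c p hpp hpa hpb]
        simp only [Nat.cast_one, mul_one]
        field_simp
    · rw [if_neg (fun h => hpa h.1), if_pos hpa]
      have h3 := nr_odd a b c p hpp hp3 hpa
      have h4 : (nr a b c p : ℝ) = (jacobiSym (b ^ 2 - 4 * a * c) p : ℝ) + 1 := by exact_mod_cast h3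
      rw [h4]
      field_simp
      ring
  rw [prod_congr rfl fac, prod_mul_distrib]
  have e1 : ∏ p ∈ S3, (if (p : ℤ) ∣ a ∧ (p : ℤ) ∣ b then (p : ℝ) / (p - 1) else 1) =
      ∏ p ∈ (range z).filter (fun p : ℕ => p.Prime ∧ 3 ≤ p ∧ (p : ℤ) ∣ a ∧ (p : ℤ) ∣ b), (p : ℝ) / (p - 1) := by
    rw [← prod_filter, hS3, hS, filter_filter, filter_filter]
  have e2 : ∏ p ∈ S3, (if ¬ (p : ℤ) ∣ a then 1 - (jacobiSym (b ^ 2 - 4 * a * c) p : ℝ) / (p - 1) else 1) =
      ∏ p ∈ (range z).filter (fun p : ℕ => p.Prime ∧ 3 ≤ p ∧ ¬ (p : ℤ) ∣ a),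
        (1 - (jacobiSym (b ^ 2 - 4 * a * c) p : ℝ) / (p - 1)) := by
    rw [← prod_filter, hS3, hS, filter_filter, filter_filter]
  rw [e1, e2, ro_QG, nr_two a b c h.2]
  split_ifs with hab
  · push_cast; ring
  · push_cast; ring

open Classical in
/-- the number of the `m ≤ X` such that `a m ^ 2 + b m + c` has no prime factor below `z` -/
noncomputable def Rr (a b c : ℤ) (z : ℝ) (X : ℕ) : ℕ :=
  ((Icc 1 X).filter (fun m : ℕ => ∀ p : ℕ, p.Prime → (p : ℤ) ∣ a * (m : ℤ) ^ 2 + b * m + c → z ≤ p)).card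

theorem rk_QG (a b c : ℤ) (Y : ℕ) (hY : 2 ≤ Y) (ζ : ℝ) (hζ : ζ ≤ 1) (X : ℕ) :
    rk (QG a b) c Y ζ X = (Rr a b c ((Y : ℝ) ^ ζ) X : ℝ) := by
  classical
  unfold rk Rr
  congr 2
  apply filter_congr
  intro m _
  rw [QG_eval]
  constructor
  · intro h p hp hd
    by_contra hlt
    push Not at hlt
    refine h p ?_ (Int.natCast_dvd.1 hd)
    rw [Pool.Agent.Y882.JR.PZ_eq Y hY ζ hζ, mem_filter, mem_range]
    exact ⟨Nat.lt_ceil.2 hlt, hp⟩
  · intro h p hp hd
    rw [Pool.Agent.Y882.JR.PZ_eq Y hY ζ hζ, mem_filter, mem_range] at hp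
    exact absurd (Nat.lt_ceil.1 hp.1) (not_lt.2 (h p hp.2 (Int.natCast_dvd.2 hd)))

open Classical in
/-- a quadratic polynomial has few small values -/
theorem small_card (a b c : ℤ) (ha : 0 < a) (z : ℝ) (X : ℕ) :
    (((Icc 1 X).filter (fun m : ℕ => (((a * (m : ℤ) ^ 2 + b * m + c).natAbs : ℕ) : ℝ) < z)).card : ℝ) ≤
      2 * (√(8 * a * z) + 1) := by
  set S := (Icc 1 X).filter (fun m : ℕ => (((a * (m : ℤ) ^ 2 + b * m + c).natAbs : ℕ) : ℝ) < z) with hS
  have har : (0 : ℝ) < a := by exact_mod_cast ha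
  set φ : ℕ → ℕ := fun m => (2 * a * (m : ℤ) + b).natAbs with hφ
  have h1 : S.card ≤ 2 * (S.image φ).card := by
    apply card_le_mul_card_image
    intro u _
    have hsub : S.filter (fun m => φ m = u) ⊆
        (S.filter (fun m : ℕ => 2 * a * (m : ℤ) + b = u)) ∪ (S.filter (fun m : ℕ => 2 * a * (m : ℤ) + b = -(u : ℤ))) := by
      intro m hm
      rw [mem_filter] at hm
      rw [mem_union]
      rcases Int.natAbs_eq (2 * a * (m : ℤ) + b) with h | h
      · left
        refine mem_filter.2 ⟨hm.1, ?_⟩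
        rw [h]
        exact_mod_cast hm.2
      · right
        refine mem_filter.2 ⟨hm.1, ?_⟩
        rw [h]
        congr 1
        exact_mod_cast hm.2
    have hone : ∀ v : ℤ, (S.filter (fun m : ℕ => 2 * a * (m : ℤ) + b = v)).card ≤ 1 := by
      intro v
      rw [card_le_one]
      intro x hx y hy
      rw [mem_filter] at hx hy
      have h2 : 2 * a * (x : ℤ) = 2 * a * (y : ℤ) := by linarith [hx.2, hy.2]
      have h3 := mul_left_cancel₀ (by omega : 2 * a ≠ 0) h2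
      exact_mod_cast h3
    calc (S.filter (fun m => φ m = u)).card ≤ _ := card_le_card hsub
      _ ≤ _ := card_union_le _ _
      _ ≤ 1 + 1 := add_le_add (hone _) (hone _)
      _ = 2 := rfl
  have h2 : ((S.image φ).card : ℝ) ≤ √(8 * a * z) + 1 := by
    rcases (S.image φ).eq_empty_or_nonempty with he | hne
    · rw [he, card_empty, Nat.cast_zero]
      positivity
    · set u0 := (S.image φ).min' hne with hu0
      have hu0m : u0 ∈ S.image φ := min'_mem _ _
      have hval : ∀ u ∈ S.image φ, |(u : ℝ) ^ 2 - ((b : ℝ) ^ 2 - 4 * a * c)| < 4 * a * z := by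
        intro u hu
        rw [mem_image] at hu
        obtain ⟨m, hm, rfl⟩ := hu
        rw [hS, mem_filter] at hm
        have e1 : (((φ m : ℕ) : ℝ)) ^ 2 = (2 * a * m + b) ^ 2 := by
          have : (((φ m : ℕ) : ℤ)) ^ 2 = (2 * a * m + b) ^ 2 := Int.natAbs_sq _
          exact_mod_cast this
        have e2 : (((φ m : ℕ) : ℝ)) ^ 2 - ((b : ℝ) ^ 2 - 4 * a * c) =
            4 * a * (a * (m : ℝ) ^ 2 + b * m + c) := by
          rw [e1]
          ring
        rw [e2, abs_mul, abs_of_pos (by positivity : (0 : ℝ) < 4 * a)]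
        apply mul_lt_mul_of_pos_left _ (by positivity)
        have h3 := hm.2
        rw [Nat.cast_natAbs] at h3
        push_cast at h3
        exact h3
      have hsub : S.image φ ⊆ Icc u0 (u0 + ⌊√(8 * a * z)⌋₊) := by
        intro u hu
        rw [mem_Icc]
        have h3 : u0 ≤ u := min'_le _ _ hu
        refine ⟨h3, ?_⟩
        have h4 : ((u - u0 : ℕ) : ℝ) ≤ √(8 * a * z) := by
          apply Real.le_sqrt_of_sq_le
          have h5 := (abs_lt.1 (hval u hu)).2
          have h6 := (abs_lt.1 (hval u0 hu0m)).1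
          have h7 : ((u : ℝ)) ^ 2 - (u0 : ℝ) ^ 2 ≤ 8 * a * z := by linarith
          have h8 : (u0 : ℝ) ≤ u := by exact_mod_cast h3
          have h9 : (0 : ℝ) ≤ u0 := Nat.cast_nonneg _
          rw [Nat.cast_sub h3]
          nlinarith
        have h5 := Nat.le_floor h4
        omega
      have h3 := card_le_card hsub
      rw [Nat.card_Icc] at h3
      have h4 : (S.image φ).card ≤ ⌊√(8 * a * z)⌋₊ + 1 := by omega
      have h5 : ((S.image φ).card : ℝ) ≤ (⌊√(8 * a * z)⌋₊ : ℝ) + 1 := by exact_mod_cast h4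
      have h6 := Nat.floor_le (Real.sqrt_nonneg (8 * a * z))
      linarith
  have h3 : (S.card : ℝ) ≤ 2 * (S.image φ).card := by exact_mod_cast h1
  linarith

/-- numbers below `z ^ 3` without prime factors below `z` -/
theorem two_of (z w : ℝ) (hw : w < z) (hz : 1 < z) (N : ℕ) (hN : 2 ≤ N) (hN3 : (N : ℝ) < z ^ 3)
    (h : ∀ q : ℕ, q.Prime → q ∣ N → z ≤ q) :
    N.Prime ∨ ∃ q r : ℕ, q.Prime ∧ r.Prime ∧ N = q * r ∧ w < q ∧ w < r := by
  have hprod := Nat.prod_primeFactorsList (by omega : N ≠ 0)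
  have hpr : ∀ q ∈ N.primeFactorsList, q.Prime := fun q hq => Nat.prime_of_mem_primeFactorsList hq
  have hdv : ∀ q ∈ N.primeFactorsList, z ≤ q := fun q hq =>
    h q (hpr q hq) (Nat.dvd_of_mem_primeFactorsList hq)
  generalize hl : N.primeFactorsList = l at hprod hpr hdv
  match l, hprod, hpr, hdv with
  | [], hprod, _, _ =>
    exfalso
    rw [List.prod_nil] at hprod
    omega
  | [q], hprod, hpr, _ =>
    left
    rw [List.prod_singleton] at hprod
    rw [← hprod]
    exact hpr q List.mem_cons_self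
  | [q, r], hprod, hpr, hdv =>
    right
    rw [List.prod_cons, List.prod_singleton] at hprod
    exact ⟨q, r, hpr q (by simp), hpr r (by simp), hprod.symm, hw.trans_le (hdv q (by simp)),
      hw.trans_le (hdv r (by simp))⟩
  | q :: r :: t :: l', hprod, hpr, hdv =>
    exfalso
    rw [List.prod_cons, List.prod_cons, List.prod_cons] at hprod
    have h1 : 1 ≤ l'.prod := by
      apply Nat.one_le_iff_ne_zero.2
      intro h0
      rw [h0] at hprod
      simp at hprod
      omega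
    have h2 : (z : ℝ) ≤ q := hdv q (by simp)
    have h3 : (z : ℝ) ≤ r := hdv r (by simp)
    have h4 : (z : ℝ) ≤ t := hdv t (by simp)
    have h5 : (1 : ℝ) ≤ l'.prod := by exact_mod_cast h1
    obtain ⟨L, hL⟩ : ∃ L, L = l'.prod := ⟨_, rfl⟩
    rw [← hL] at hprod h5
    have h6 : ((q * (r * (t * L)) : ℕ) : ℝ) = N := by exact_mod_cast hprod
    push_cast at h6
    have h7 : z ^ 3 ≤ N := by
      rw [← h6]
      calc z ^ 3 = z * (z * (z * 1)) := by ring
        _ ≤ (q : ℝ) * (r * (t * L)) := by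
            apply mul_le_mul h2 _ (by positivity) (by linarith)
            apply mul_le_mul h3 _ (by positivity) (by linarith)
            exact mul_le_mul h4 h5 (by norm_num) (by linarith)
    linarith

end Pool.Agent.Q148.KJ
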